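import Pool.Agent.MWU.Top

/-!
# The systems of identities for the varieties with `x² ≈ x^(n+2)` and `xyx ≈ x^(n+1)yx^(n+1)`

`S u v` stands for: the variety satisfies `u ≈ v`; the letters `0, 1, 2` are written `x, y, t`.
-/

namespace Pool.Agent.MWU

open Pool.Agent.MWZ

/-- every letter of `l` written `k` times -/
def pw (k : ℕ) (l : List ℕ) : List ℕ := l.flatMap (fun c => List.replicate k c)

/-- `xyxy ≈ yxyx`, `xyxy ≈ yx²y`, `xy²tx ≈ xy²x^n tx` -/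
def Wn : Sy := fun n S => S [0, 1, 0, 1] [1, 0, 1, 0] ∧ S [0, 1, 0, 1] [1, 0, 0, 1] ∧
  S [0, 1, 1, 2, 0] ([0, 1, 1] ++ (X n ++ [2, 0]))

/-- `x v y t xy ≈ x v y t yx` and `xy t x v y ≈ yx t x v y` for all products `v` of powers `z^(n+1)` of
letters `z` different from `x, y, t` -/
def Bn : Sy := fun n S => ∀ l : List ℕ, (∀ c ∈ l, 3 ≤ c) →
  S (0 :: (pw (n + 1) l ++ [1, 2, 0, 1])) (0 :: (pw (n + 1) l ++ [1, 2, 1, 0])) ∧
  S ([0, 1, 2, 0] ++ (pw (n + 1) l ++ [1])) ([1, 0, 2, 0] ++ (pw (n + 1) l ++ [1]))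

/-- the systems for the varieties with `xyx ≈ x^(n+1)yx^(n+1)` -/
def SB : Sy := fun n S => Bet n S ∧ (Wn n S ∨ Bn n S)

end Pool.Agent.MWU
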