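import Pool.Agent.Helper44_MWU.Sys
import Pool.Agent.MWB.Comp
import Pool.Agent.MWB.Suf
import Pool.Agent.MWB.Nec
import Pool.Agent.Helper70_MWB.FIN
import Pool.Agent.MWZ.FullStmts

/-!
# The block theorems for `xyx ≈ x²yx²`, period one, in the form of the top level assembly
-/

namespace Pool.Agent.MWU.H44

open Pool.Agent.Helper14_MV Pool.Agent.Helper2_MV Pool.Agent.Helper44_MVT Pool.Agent.MWZ
  Pool.Agent.MWU

variable {β : FIC}

theorem _root_.Pool.Agent.Helper2_MV.RR.tr44 {β : FIC} {a b c : List ℕ} (h : RR β a b)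
    (h' : RR β b c) : RR β a c := FIC.trans β h h'

/-- all letters can be doubled -/
theorem dall (h0 : MWB.B0 β) (f : ℕ → List ℕ) (hf : ∀ c, f c = [c] ∨ f c = [c, c]) :
    ∀ (q p : List ℕ), (∀ c, f c = [c, c] → c ∈ q → 2 ≤ (p ++ q).count c) →
      RR β (p.flatMap f ++ q) ((p ++ q).flatMap f) := by
  intro q
  induction q with
  | nil =>
    intro p _
    rw [List.append_nil, List.append_nil]
    exact RR.refl _
  | cons c q ih =>
    intro p hp
    have h1 := ih (p ++ [c]) (by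
      intro d hd hdq
      have := hp d hd (List.mem_cons_of_mem _ hdq)
      rwa [List.append_assoc])
    have e : p ++ [c] ++ q = p ++ c :: q := by rw [List.append_assoc]; rfl
    rw [e] at h1
    refine RR.tr44 ?_ h1
    rw [List.flatMap_append, List.append_assoc]
    rcases hf c with hc | hc
    · have e2 : [c].flatMap f ++ q = c :: q := by
        rw [List.flatMap_cons, List.flatMap_nil, hc]; rfl
      rw [e2]
      exact RR.refl _
    · have e2 : [c].flatMap f ++ q = c :: c :: q := by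
        rw [List.flatMap_cons, List.flatMap_nil, hc]; rfl
      rw [e2]
      apply one_dbl h0
      have h2 := hp c hc (List.mem_cons_self ..)
      rw [List.count_append, List.count_cons_self] at h2
      by_cases h3 : c ∈ q
      · exact Or.inr h3
      · left
        have h4 : q.count c = 0 := List.count_eq_zero.2 h3
        have h5 : 0 < p.count c := by omega
        refine List.mem_flatMap.2 ⟨c, List.count_pos_iff.1 h5, ?_⟩
        rw [hc]
        exact List.mem_cons_self ..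

/-- doubling of the letters `0`, `1` -/
def d01 (c : ℕ) : List ℕ := if c = 2 then [2] else [c, c]

theorem d01_or (c : ℕ) : d01 c = [c] ∨ d01 c = [c, c] := by
  unfold d01
  by_cases h : c = 2
  · left; rw [if_pos h, h]
  · right; rw [if_neg h]

theorem dbl01 (h0 : MWB.B0 β) (w : List ℕ) (hw : ∀ c ∈ w, c ≠ 2 → 2 ≤ w.count c) :
    RR β w (w.flatMap d01) := by
  have h := dall h0 d01 d01_or w [] (by
    intro c hc hcw
    refine hw c hcw ?_
    rintro rfl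
    exact absurd hc (by decide))
  exact h

theorem sq4 (h0 : MWB.B0 β) (c : ℕ) : RR β [c, c, c, c] [c, c] := by
  have h1 : RR β [0, 0, 0, 0] [0, 0] := by
    have h2 : RR β ([0, 0] ++ [0]) ([0, 0, 0] ++ [0]) := h0.1.append (RR.refl _)
    exact h2.symm.tr44 h0.1.symm
  exact h1.sub (fun _ => [c])

/-! ### the first system -/

theorem bw_wn (h0 : MWB.B0 β) (h : MWB.BW β) : Wn 1 (RR β) := by
  -- `x²y² x² ≈ x²y²x²y²x²` from the second identity with `t = y²`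
  have hz := h.1
  have hm : RR β [0, 0, 1, 1, 2, 0, 0] [0, 0, 1, 1, 0, 0, 2, 0, 0] := by
    have h1 : RR β ([0, 0, 1, 1, 2, 0] ++ [0]) ([0, 0, 1, 1, 0, 0, 2, 0] ++ [0]) :=
      h.2.append (RR.refl _)
    exact h1
  have h1 : RR β [0, 0, 1, 1, 0, 0] [0, 0, 1, 1, 0, 0, 1, 1, 0, 0] := by
    have h2 := hm.sub (fun i => if i = 2 then [1, 1] else [i])
    have h2' : RR β [0, 0, 1, 1, 1, 1, 0, 0] [0, 0, 1, 1, 0, 0, 1, 1, 0, 0] := h2
    have h3 : RR β ([0, 0] ++ [1, 1, 1, 1] ++ [0, 0]) ([0, 0] ++ [1, 1] ++ [0, 0]) :=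
      ((RR.refl _).append (sq4 h0 1)).append (RR.refl _)
    exact h3.symm.tr44 h2'
  -- `x²y²x² ≈ y²x²y²x²`
  have h2 : RR β [0, 0, 1, 1, 0, 0] [1, 1, 0, 0, 1, 1, 0, 0] := by
    have h3 : RR β ([0, 0, 1, 1, 0, 0, 1, 1] ++ [0, 0]) ([1, 1, 0, 0, 1, 1, 0, 0] ++ [0, 0]) :=
      hz.append (RR.refl _)
    have h4 : RR β ([1, 1, 0, 0, 1, 1] ++ [0, 0, 0, 0]) ([1, 1, 0, 0, 1, 1] ++ [0, 0]) :=
      (RR.refl _).append (sq4 h0 0)
    exact h1.tr44 (h3.tr44 h4)
  have h2' : RR β [1, 1, 0, 0, 1, 1] [0, 0, 1, 1, 0, 0, 1, 1] :=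
    h2.sub (fun i => if i = 0 then [1] else if i = 1 then [0] else [i])
  refine ⟨?_, ?_, ?_⟩
  · have a1 : RR β [0, 1, 0, 1] [0, 0, 1, 1, 0, 0, 1, 1] := dbl01 h0 _ (by decide)
    have a2 : RR β [1, 0, 1, 0] [1, 1, 0, 0, 1, 1, 0, 0] := dbl01 h0 _ (by decide)
    exact a1.tr44 (hz.tr44 a2.symm)
  · have a1 : RR β [0, 1, 0, 1] [0, 0, 1, 1, 0, 0, 1, 1] := dbl01 h0 _ (by decide)
    have a2 : RR β [1, 0, 0, 1] [1, 1, 0, 0, 0, 0, 1, 1] := dbl01 h0 _ (by decide)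
    have a3 : RR β ([1, 1] ++ [0, 0, 0, 0] ++ [1, 1]) ([1, 1] ++ [0, 0] ++ [1, 1]) :=
      ((RR.refl _).append (sq4 h0 0)).append (RR.refl _)
    exact a1.tr44 (h2'.symm.tr44 (a3.symm.tr44 a2.symm))
  · have a1 : RR β [0, 1, 1, 2, 0] [0, 0, 1, 1, 1, 1, 2, 0, 0] := dbl01 h0 _ (by decide)
    have a2 : RR β [0, 1, 1, 0, 2, 0] [0, 0, 1, 1, 1, 1, 0, 0, 2, 0, 0] := dbl01 h0 _ (by decide)
    have a3 : RR β ([0, 0] ++ [1, 1, 1, 1] ++ [2, 0, 0]) ([0, 0] ++ [1, 1] ++ [2, 0, 0]) :=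
      ((RR.refl _).append (sq4 h0 1)).append (RR.refl _)
    have a4 : RR β ([0, 0] ++ [1, 1, 1, 1] ++ [0, 0, 2, 0, 0]) ([0, 0] ++ [1, 1] ++ [0, 0, 2, 0, 0]) :=
      ((RR.refl _).append (sq4 h0 1)).append (RR.refl _)
    exact a1.tr44 (a3.tr44 (hm.tr44 (a4.symm.tr44 a2.symm)))

theorem wn_bw (h0 : MWB.B0 β) (h : Wn 1 (RR β)) : MWB.BW β := by
  refine ⟨?_, ?_⟩
  · have a1 : RR β [0, 1, 0, 1] [0, 0, 1, 1, 0, 0, 1, 1] := dbl01 h0 _ (by decide)
    have a2 : RR β [1, 0, 1, 0] [1, 1, 0, 0, 1, 1, 0, 0] := dbl01 h0 _ (by decide)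
    exact a1.symm.tr44 (h.1.tr44 a2)
  · have hm : RR β [0, 1, 1, 2, 0] [0, 1, 1, 0, 2, 0] := h.2.2
    have a1 : RR β [0, 1, 1, 2, 0] [0, 0, 1, 1, 1, 1, 2, 0, 0] := dbl01 h0 _ (by decide)
    have a2 : RR β [0, 1, 1, 0, 2, 0] [0, 0, 1, 1, 1, 1, 0, 0, 2, 0, 0] := dbl01 h0 _ (by decide)
    have b1 : RR β [0, 0, 1, 1, 2, 0] [0, 0, 0, 0, 1, 1, 1, 1, 2, 0, 0] := dbl01 h0 _ (by decide)
    have b2 : RR β [0, 0, 1, 1, 0, 0, 2, 0] [0, 0, 0, 0, 1, 1, 1, 1, 0, 0, 0, 0, 2, 0, 0] :=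
      dbl01 h0 _ (by decide)
    have c1 : RR β ([0, 0, 0, 0] ++ [1, 1, 1, 1, 2, 0, 0]) ([0, 0] ++ [1, 1, 1, 1, 2, 0, 0]) :=
      (sq4 h0 0).append (RR.refl _)
    have c2 : RR β ([0, 0, 0, 0] ++ [1, 1, 1, 1] ++ [0, 0, 0, 0] ++ [2, 0, 0])
        ([0, 0] ++ [1, 1, 1, 1] ++ [0, 0] ++ [2, 0, 0]) :=
      (((sq4 h0 0).append (RR.refl _)).append (sq4 h0 0)).append (RR.refl _)
    exact b1.tr44 (c1.tr44 (a1.symm.tr44 (hm.tr44 (a2.tr44 (c2.symm.tr44 b2.symm)))))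

/-! ### the second system -/

theorem pw2 (l : List ℕ) : pw 2 l = dbl l := rfl

theorem bb_bn (h : MWB.BB β) : Bn 1 (RR β) := fun l hl => ⟨h.1 l hl, h.2.1 l hl⟩

theorem ren_dbl (x y : ℕ) (l : List ℕ) : (dbl (l.map (· + 3))).flatMap (fun i => if i = 0 then [x, x]
    else if i = 1 then [y, y] else if i = 2 then [] else [i - 3]) = dbl l := by
  unfold dbl
  induction l with
  | nil => rfl
  | cons c l ih =>
    rw [List.map_cons, List.flatMap_cons, List.flatMap_append, ih, List.flatMap_cons]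
    simp

/-- the first family for arbitrary letters, without `t` -/
theorem bn_r (h : Bn 1 (RR β)) (x y : ℕ) (l : List ℕ) :
    RR β ([x, x] ++ (dbl l ++ [y, y, x, x, y, y])) ([x, x] ++ (dbl l ++ [y, y, y, y, x, x])) := by
  have h1 := (h (l.map (· + 3)) (by
    intro c hc
    obtain ⟨d, _, rfl⟩ := List.mem_map.1 hc
    omega)).1
  have h2 := h1.sub (fun i => if i = 0 then [x, x] else if i = 1 then [y, y] else
    if i = 2 then [] else [i - 3])
  clear h1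
  have e := ren_dbl x y l
  have h3 : RR β ([x, x] ++ ((dbl (l.map (· + 3))).flatMap (fun i => if i = 0 then [x, x] else
      if i = 1 then [y, y] else if i = 2 then [] else [i - 3]) ++ [y, y, x, x, y, y]))
      ([x, x] ++ ((dbl (l.map (· + 3))).flatMap (fun i => if i = 0 then [x, x] else
      if i = 1 then [y, y] else if i = 2 then [] else [i - 3]) ++ [y, y, y, y, x, x])) := by
    have e1 : ∀ m : List ℕ, (0 :: (pw 2 (l.map (· + 3)) ++ m)).flatMap (fun i => if i = 0 then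
        [x, x] else if i = 1 then [y, y] else if i = 2 then [] else [i - 3]) =
        [x, x] ++ ((dbl (l.map (· + 3))).flatMap (fun i => if i = 0 then [x, x] else
          if i = 1 then [y, y] else if i = 2 then [] else [i - 3]) ++ m.flatMap (fun i =>
          if i = 0 then [x, x] else if i = 1 then [y, y] else if i = 2 then [] else [i - 3])) := by
      intro m
      rw [List.flatMap_cons, List.flatMap_append]
      rfl
    rw [e1, e1] at h2
    exact h2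
  rwa [e] at h3

theorem bn_l (h : Bn 1 (RR β)) (x y : ℕ) :
    RR β [x, x, y, y, x, x, y, y] [y, y, x, x, x, x, y, y] := by
  have h1 : RR β ([0, 1, 2, 0] ++ (pw 2 [] ++ [1])) ([1, 0, 2, 0] ++ (pw 2 [] ++ [1])) :=
    (h [] (by intro c hc; exact absurd hc (by simp))).2
  have h2 := h1.sub (fun i => if i = 0 then [x, x] else if i = 1 then [y, y] else [])
  exact h2

theorem dbl_append (l l' : List ℕ) : dbl (l ++ l') = dbl l ++ dbl l' := by
  unfold dbl
  rw [List.flatMap_append]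

theorem bn_bb (h0 : MWB.B0 β) (h : Bn 1 (RR β)) : MWB.BB β := by
  refine ⟨fun l hl => (h l hl).1, fun l hl => (h l hl).2, ?_⟩
  intro l
  induction l using List.reverseRecOn with
  | nil =>
    exact RR.tr44 (sq4 h0 0) (RR.refl _)
  | append_singleton l y ih =>
    rw [dbl_append, List.flatMap_append]
    have e1 : [0, 0] ++ (dbl l ++ dbl [y] ++ [0, 0]) = [0, 0] ++ (dbl l ++ [y, y, 0, 0]) := by
      rw [List.append_assoc]; rfl
    have e2 : [0, 0] ++ (l.flatMap (fun c => [c, c, 0, 0]) ++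
        [y].flatMap (fun c => [c, c, 0, 0])) =
        [0, 0] ++ l.flatMap (fun c => [c, c, 0, 0]) ++ [y, y, 0, 0] := by
      rw [List.append_assoc]; rfl
    rw [e1, e2]
    -- `x² v y² x² ≈ x² v y² x² y²`
    have a1 : RR β ([0, 0] ++ (dbl l ++ [y, y, 0, 0]))
        ([0, 0] ++ (dbl l ++ [y, y, 0, 0, y, y])) := by
      have b1 := bn_r h 0 y l
      have b2 : RR β ([0, 0] ++ (dbl l ++ ([y, y, y, y] ++ [0, 0])))
          ([0, 0] ++ (dbl l ++ ([y, y] ++ [0, 0]))) :=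
        (RR.refl _).append ((RR.refl _).append ((sq4 h0 y).append (RR.refl _)))
      exact b2.symm.tr44 b1.symm
    -- `y² x² y² ≈ x² y² x² y²`
    have a2 : RR β [y, y, 0, 0, y, y] [0, 0, y, y, 0, 0, y, y] := by
      have b1 := bn_l h 0 y
      have b2 : RR β ([y, y] ++ [0, 0, 0, 0] ++ [y, y]) ([y, y] ++ [0, 0] ++ [y, y]) :=
        ((RR.refl _).append (sq4 h0 0)).append (RR.refl _)
      exact b2.symm.tr44 b1.symm
    -- `x² y² x² y² ≈ x² y² x²`
    have a3 : RR β [0, 0, y, y, 0, 0, y, y] [0, 0, y, y, 0, 0] := by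
      have b1 : RR β ([0, 0] ++ (dbl [] ++ [y, y, 0, 0, y, y]))
          ([0, 0] ++ (dbl [] ++ [y, y, y, y, 0, 0])) := bn_r h 0 y []
      have b2 : RR β ([0, 0] ++ [y, y, y, y] ++ [0, 0]) ([0, 0] ++ [y, y] ++ [0, 0]) :=
        ((RR.refl _).append (sq4 h0 y)).append (RR.refl _)
      exact b1.tr44 b2
    have a4 : RR β ([0, 0] ++ (dbl l ++ [y, y, 0, 0, y, y]))
        ([0, 0] ++ (dbl l ++ [0, 0, y, y, 0, 0])) :=
      (RR.refl _).append ((RR.refl _).append (a2.tr44 a3))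
    have a5 : RR β ([0, 0] ++ (dbl l ++ [0, 0]) ++ [y, y, 0, 0])
        ([0, 0] ++ l.flatMap (fun c => [c, c, 0, 0]) ++ [y, y, 0, 0]) := ih.append (RR.refl _)
    have e3 : [0, 0] ++ (dbl l ++ [0, 0]) ++ [y, y, 0, 0] =
        [0, 0] ++ (dbl l ++ [0, 0, y, y, 0, 0]) := by simp
    rw [e3] at a5
    exact a1.tr44 (a4.tr44 a5)

/-! ### the block theorems -/

theorem b0_of (hp : Per 1 (RR β)) (hb : Bet 1 (RR β)) : MWB.B0 β := ⟨hp, hb⟩

theorem rev_rr : Rev (RR β) = RR (FIC.op β) := by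
  funext u v
  exact propext MWB.rr_op.symm

theorem b0_op' (h0 : MWB.B0 β) : MWB.B0 (FIC.op β) := by
  refine ⟨?_, ?_⟩
  · rw [MWB.rr_op]; exact h0.1
  · rw [MWB.rr_op]; exact h0.2

theorem bw'_op (h : MWB.BW' β) : MWB.BW (FIC.op β) := by
  refine ⟨?_, ?_⟩
  · rw [MWB.rr_op]; exact h.1.symm
  · rw [MWB.rr_op]; exact h.2

theorem nec1 (hp : Per 1 (RR β)) (hn : MWB.NCR β) (hb : Bet 1 (RR β)) (hm : ModF β) :
    SB 1 (RR β) ∨ SB 1 (RR (FIC.op β)) := by
  have h0 := b0_of hp hb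
  have h0' := b0_op' h0
  rcases MWB.nec MWP.H70.fin β hm hn h0 with h | h | h
  · exact Or.inl ⟨hb, Or.inl (bw_wn h0 h)⟩
  · exact Or.inr ⟨h0'.2, Or.inl (bw_wn h0' (bw'_op h))⟩
  · exact Or.inl ⟨hb, Or.inr (bb_bn h)⟩

theorem suf1 (hp : Per 1 (RR β)) (h : SB 1 (RR β)) : ModF β := by
  have h0 := b0_of hp h.1
  rcases h.2 with h1 | h1
  · exact MWB.sw MWB.Comp.mws_w1d β h0 (wn_bw h0 h1)
  · exact MWB.sb MWB.Comp.mws_b2d β h0 (bn_bb h0 h1)

/-- necessity, form of block MWU -/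
theorem bN : Nec (· = 1) (fun n β => Bet n (RR β)) SB := by
  intro n β _ hn hp hcr _ hm hb
  have hn' : n = 1 := hn
  subst hn'
  rw [rev_rr]
  exact nec1 hp hcr hb hm

/-- sufficiency, form of block MWU -/
theorem bS : Suf (· = 1) SB := by
  intro n β _ hn hp h
  have hn' : n = 1 := hn
  subst hn'
  exact suf1 hp h

/-- necessity, form of block MWZ -/
theorem necB1 : MWZ.NecB1 SB 1 := fun _ hp hn hb hm => nec1 hp hn hb hm

/-- sufficiency, form of block MWZ -/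
theorem sufB1 : MWZ.SufB1 SB 1 := fun _ hp _ _ h => suf1 hp h

end Pool.Agent.MWU.H44
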